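import Mathlib

/-! A linear Cauchy–Davenport theorem for products of subspaces of a field, with the exceptional case
described by one quotient. -/

set_option autoImplicit false

open Module

namespace Pool.Agent.Q217.CD

variable {K L : Type*} [Field K] [Field L] [Algebra K L]

/-- `W` contains two elements whose quotient is algebraic over `K`, but not in `K`. -/
def HasAlg (W : Submodule K L) : Prop :=
  ∃ x ∈ W, ∃ y ∈ W, y ≠ 0 ∧ IsAlgebraic K (x / y) ∧ x / y ∉ Set.range (algebraMap K L)

theorem HasAlg.mono {V W : Submodule K L} (h : V ≤ W) (hV : HasAlg V) : HasAlg W := by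
  obtain ⟨x, hx, y, hy, h1⟩ := hV
  exact ⟨x, h hx, y, h hy, h1⟩

theorem finite_mul (V W : Submodule K L) [FiniteDimensional K V] [FiniteDimensional K W] :
    FiniteDimensional K (V * W : Submodule K L) := by
  have h1 : V.FG := Module.Finite.iff_fg.1 inferInstance
  have h2 : W.FG := Module.Finite.iff_fg.1 inferInstance
  exact Module.Finite.iff_fg.2 (h1.mul h2)

theorem cd_aux (n : ℕ) : ∀ (V W : Submodule K L), FiniteDimensional K V → FiniteDimensional K W →
    V ≠ ⊥ → W ≠ ⊥ → finrank K W ≤ n →
    finrank K V + finrank K W ≤ finrank K (V * W : Submodule K L) + 1 ∨ HasAlg W := by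
  induction n with
  | zero =>
    intro V W _ hWf _ hW hn
    exact absurd (Submodule.finrank_eq_zero.1 (by omega)) hW
  | succ n ih =>
    intro V W hVf hWf hV hW hn
    have hVWf := finite_mul V W
    obtain ⟨w, hw, hw0⟩ := (Submodule.ne_bot_iff W).1 hW
    by_cases hone : finrank K W ≤ 1
    · left
      have hinj : Function.Injective (LinearMap.mulRight K w) := by
        intro a b hab
        exact mul_right_cancel₀ hw0 hab
      have h1 : V.map (LinearMap.mulRight K w) ≤ V * W := by
        rintro _ ⟨v, hv, rfl⟩
        exact Submodule.mul_mem_mul hv hw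
      have h2 := Submodule.finrank_mono h1
      have h3 := (Submodule.equivMapOfInjective (LinearMap.mulRight K w) hinj V).finrank_eq
      omega
    by_cases hc : ∀ v ∈ V, ∀ w ∈ W, w ≠ 0 → ∀ u ∈ W, (v / w) * u ∈ V
    · right
      -- an element of `W` which is not a multiple of `w`
      have hex : ∃ u ∈ W, u ∉ Submodule.span K {w} := by
        by_contra hcon
        push Not at hcon
        have h1 : W ≤ Submodule.span K {w} := fun u hu => hcon u hu
        have h2 := Submodule.finrank_mono h1
        rw [finrank_span_singleton hw0] at h2
        exact hone h2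
      obtain ⟨u, hu, hus⟩ := hex
      refine ⟨u, hu, w, hw, hw0, ?_, ?_⟩
      · have hint : IsIntegral K (u / w) := by
          refine isIntegral_of_smul_mem_submodule V hV (Module.Finite.iff_fg.1 hVf) (u / w) ?_
          intro v hv
          have h1 := hc v hv w hw hw0 u hu
          rwa [smul_eq_mul, show u / w * v = v / w * u by ring]
        exact hint.isAlgebraic
      · rintro ⟨c, hc1⟩
        apply hus
        rw [Submodule.mem_span_singleton]
        refine ⟨c, ?_⟩
        rw [Algebra.smul_def, hc1, div_mul_cancel₀ _ hw0]
    · push Not at hc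
      obtain ⟨v, hv, w, hw, hw0, u, hu, huv⟩ := hc
      have hv0 : v ≠ 0 := by
        rintro rfl
        rw [zero_div, zero_mul] at huv
        exact huv (Submodule.zero_mem V)
      set e := v / w with he
      have he0 : e ≠ 0 := div_ne_zero hv0 hw0
      have hinj : Function.Injective (LinearMap.mulLeft K e) := by
        intro a b hab
        exact mul_left_cancel₀ he0 hab
      let eW : Submodule K L := W.map (LinearMap.mulLeft K e)
      let V' : Submodule K L := V ⊔ eW
      let W' : Submodule K L := W ⊓ V.comap (LinearMap.mulLeft K e)
      have heWf : FiniteDimensional K eW := inferInstance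
      have hV'f : FiniteDimensional K V' := inferInstance
      have hW'f : FiniteDimensional K W' := Submodule.finiteDimensional_of_le inf_le_left
      have hW'W : W' ≤ W := inf_le_left
      have hlt : finrank K W' < finrank K W := by
        refine Submodule.finrank_lt_finrank_of_lt (lt_of_le_of_ne hW'W ?_)
        intro h
        have h1 : u ∈ W' := by rw [h]; exact hu
        exact huv h1.2
      have hwW' : w ∈ W' := by
        refine ⟨hw, ?_⟩
        show e * w ∈ V
        rw [he, div_mul_cancel₀ _ hw0]
        exact hv
      have hW'0 : W' ≠ ⊥ := (Submodule.ne_bot_iff W').2 ⟨w, hwW', hw0⟩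
      have hV'0 : V' ≠ ⊥ := by
        intro h
        exact hV (le_bot_iff.1 (h ▸ le_sup_left))
      rcases ih V' W' hV'f hW'f hV'0 hW'0 (by omega) with h | h
      · left
        have h1 : V' * W' ≤ V * W := by
          rw [Submodule.sup_mul]
          refine sup_le (mul_le_mul' le_rfl hW'W) ?_
          rw [Submodule.mul_le]
          rintro _ ⟨a, ha, rfl⟩ b hb
          have h2 : LinearMap.mulLeft K e a * b = (e * b) * a := by
            rw [LinearMap.mulLeft_apply]
            ring
          rw [h2]
          exact Submodule.mul_mem_mul hb.2 ha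
        have h2 := Submodule.finrank_mono h1
        have h3 := Submodule.finrank_sup_add_finrank_inf_eq V eW
        have h4 := (Submodule.equivMapOfInjective (LinearMap.mulLeft K e) hinj W).finrank_eq
        have h5 := (Submodule.equivMapOfInjective (LinearMap.mulLeft K e) hinj W').finrank_eq
        have h6 : W'.map (LinearMap.mulLeft K e) = V ⊓ eW := by
          ext z
          constructor
          · rintro ⟨a, ha, rfl⟩
            exact ⟨ha.2, ⟨a, ha.1, rfl⟩⟩
          · rintro ⟨hz, ⟨a, ha, rfl⟩⟩
            exact ⟨a, ⟨ha, hz⟩, rfl⟩
        rw [h6] at h5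
        have h7 : finrank K eW = finrank K W := h4.symm
        have h8 : finrank K V' = finrank K (V ⊔ eW : Submodule K L) := rfl
        omega
      · exact Or.inr (h.mono hW'W)

/-- **Linear Cauchy–Davenport theorem.** -/
theorem cd (V W : Submodule K L) [hV : FiniteDimensional K V] [hW : FiniteDimensional K W]
    (hV0 : V ≠ ⊥) (hW0 : W ≠ ⊥) :
    finrank K V + finrank K W ≤ finrank K (V * W : Submodule K L) + 1 ∨ HasAlg W :=
  cd_aux _ V W hV hW hV0 hW0 le_rfl

end Pool.Agent.Q217.CD
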