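import Pool.Agent.H447R2.MZ.Basic

/-! Multiple polylogarithms at roots of unity: convergence, product. -/

set_option autoImplicit false

open Finset Filter Topology

namespace Pool.Agent.Q217.CD.Lev

open Pool.Agent.H447R2.MZ (H H_nil H_cons H_le H_nonneg sum_two)

/-- the truncated sums `∑_{L ≥ l_1 > ⋯ > l_n > 0} ∏ z_j^(l_j) / l_j^(a_j)` of the list of the pairs
`(a_j, z_j)` -/
noncomputable def tr : List (ℕ × ℂ) → ℕ → ℂ
  | [], _ => 1
  | (p :: s), L => ∑ l ∈ Finset.range L, p.2 ^ (l + 1) / ((l + 1 : ℕ) : ℂ) ^ p.1 * tr s l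

/-- the multiple polylogarithm `Li_{a_1, …, a_n}(z_1, …, z_n)`, the limit of the truncated sums -/
noncomputable def Li (s : List (ℕ × ℂ)) : ℂ := limUnder atTop (tr s)

theorem tr_nil (L : ℕ) : tr [] L = 1 := by rw [tr]

theorem tr_cons (p : ℕ × ℂ) (s : List (ℕ × ℂ)) (L : ℕ) : tr (p :: s) L =
    ∑ l ∈ Finset.range L, p.2 ^ (l + 1) / ((l + 1 : ℕ) : ℂ) ^ p.1 * tr s l := by rw [tr]

theorem tr_cons_zero (p : ℕ × ℂ) (s : List (ℕ × ℂ)) : tr (p :: s) 0 = 0 := by simp [tr_cons]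

theorem tr_cons_succ (p : ℕ × ℂ) (s : List (ℕ × ℂ)) (L : ℕ) : tr (p :: s) (L + 1) =
    tr (p :: s) L + p.2 ^ (L + 1) / ((L + 1 : ℕ) : ℂ) ^ p.1 * tr s L := by
  rw [tr_cons, Finset.sum_range_succ, ← tr_cons]

theorem norm_tr_le (s : List (ℕ × ℂ)) (h : ∀ p ∈ s, ‖p.2‖ = 1) (L : ℕ) :
    ‖tr s L‖ ≤ H (s.map Prod.fst) L := by
  induction s generalizing L with
  | nil => simp [tr_nil, H_nil]
  | cons p s ih =>
    rw [tr_cons, List.map_cons, H_cons]
    refine (norm_sum_le _ _).trans (Finset.sum_le_sum fun l _ => ?_)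
    rw [norm_mul, norm_div, norm_pow, norm_pow, h p (by simp), one_pow, one_div, Complex.norm_natCast]
    exact mul_le_mul_of_nonneg_left (ih (fun q hq => h q (by simp [hq])) l) (by positivity)

theorem norm_tr_le' (s : List (ℕ × ℂ)) (h : ∀ p ∈ s, 1 ≤ p.1 ∧ ‖p.2‖ = 1) (L : ℕ) :
    ‖tr s L‖ ≤ 2 ^ s.length * Real.sqrt ((L : ℝ) + 1) := by
  refine (norm_tr_le s (fun p hp => (h p hp).2) L).trans ?_
  have := H_le (s.map Prod.fst) (by
    intro a ha
    rw [List.mem_map] at ha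
    obtain ⟨p, hp, rfl⟩ := ha
    exact (h p hp).1) L
  rwa [List.length_map] at this

/-- the dominating sequence -/
theorem summable_q : Summable fun n : ℕ => (((n : ℝ) + 1) * Real.sqrt ((n : ℝ) + 1))⁻¹ :=
  summable_of_sum_range_le (fun n => by positivity) sum_two

theorem sq_div (x : ℝ) (hx : 0 < x) : (x ^ 2)⁻¹ * Real.sqrt x = (x * Real.sqrt x)⁻¹ := by
  have h1 : Real.sqrt x * Real.sqrt x = x := Real.mul_self_sqrt hx.le
  have h2 : 0 < Real.sqrt x := Real.sqrt_pos.2 hx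
  rw [mul_inv]
  field_simp
  nlinarith

theorem geom_bound (z : ℂ) (h1 : ‖z‖ = 1) (hz : z ≠ 1) (m : ℕ) :
    ‖∑ i ∈ range m, z ^ (i + 1)‖ ≤ 2 / ‖z - 1‖ := by
  have h0 : z - 1 ≠ 0 := sub_ne_zero.2 hz
  have h2 : ∑ i ∈ range m, z ^ (i + 1) = z * ((z ^ m - 1) / (z - 1)) := by
    rw [← geom_sum_eq hz, Finset.mul_sum]
    exact Finset.sum_congr rfl fun i _ => by rw [pow_succ, mul_comm]
  rw [h2, norm_mul, h1, one_mul, norm_div]
  gcongr
  calc ‖z ^ m - 1‖ ≤ ‖z ^ m‖ + ‖(1 : ℂ)‖ := norm_sub_le _ _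
    _ = 2 := by rw [norm_pow, h1, one_pow, norm_one]; norm_num

theorem abel_id (z : ℂ) (g : ℕ → ℂ) (m : ℕ) :
    ∑ l ∈ range m, z ^ (l + 1) * g l = (∑ i ∈ range m, z ^ (i + 1)) * g m -
      ∑ l ∈ range m, (∑ i ∈ range (l + 1), z ^ (i + 1)) * (g (l + 1) - g l) := by
  induction m with
  | zero => simp
  | succ m ih =>
    rw [Finset.sum_range_succ, ih, Finset.sum_range_succ (fun l => (∑ i ∈ range (l + 1), z ^ (i + 1)) *
      (g (l + 1) - g l)), Finset.sum_range_succ (fun i => z ^ (i + 1)) m]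
    ring

theorem diff_bound (s : List (ℕ × ℂ)) (h : ∀ p ∈ s, 1 ≤ p.1 ∧ ‖p.2‖ = 1) (L : ℕ) :
    ‖tr s (L + 1) - tr s L‖ ≤ 2 ^ s.length * (Real.sqrt ((L : ℝ) + 1))⁻¹ := by
  cases s with
  | nil => rw [tr_nil, tr_nil, sub_self, norm_zero]; positivity
  | cons p s =>
    have hp := h p (by simp)
    have hs : ∀ q ∈ s, 1 ≤ q.1 ∧ ‖q.2‖ = 1 := fun q hq => h q (by simp [hq])
    have hL : (0 : ℝ) < (L : ℝ) + 1 := by positivity
    have h1 := norm_tr_le' s hs L
    rw [tr_cons_succ, add_sub_cancel_left, norm_mul, norm_div, norm_pow, norm_pow, hp.2, one_pow,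
      Complex.norm_natCast]
    have h2 : (1 : ℝ) / ((L + 1 : ℕ) : ℝ) ^ p.1 ≤ ((L : ℝ) + 1)⁻¹ := by
      rw [one_div]
      apply inv_anti₀ hL
      push_cast
      calc (L : ℝ) + 1 = ((L : ℝ) + 1) ^ 1 := (pow_one _).symm
        _ ≤ _ := pow_le_pow_right₀ (by linarith [Nat.cast_nonneg (α := ℝ) L]) hp.1
    calc _ ≤ ((L : ℝ) + 1)⁻¹ * (2 ^ s.length * Real.sqrt ((L : ℝ) + 1)) :=
          mul_le_mul h2 h1 (norm_nonneg _) (by positivity)
      _ = 2 ^ s.length * (Real.sqrt ((L : ℝ) + 1))⁻¹ := by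
          have h3 : Real.sqrt ((L : ℝ) + 1) * Real.sqrt ((L : ℝ) + 1) = (L : ℝ) + 1 :=
            Real.mul_self_sqrt hL.le
          have h4 : 0 < Real.sqrt ((L : ℝ) + 1) := Real.sqrt_pos.2 hL
          field_simp
          nlinarith
      _ ≤ _ := by
          rw [List.length_cons, pow_succ]
          have : 0 ≤ 2 ^ s.length * (Real.sqrt ((L : ℝ) + 1))⁻¹ := by positivity
          nlinarith

theorem converges (s : List (ℕ × ℂ)) (h : ∀ p ∈ s, 1 ≤ p.1 ∧ ‖p.2‖ = 1)
    (hh : ∀ p t, s = p :: t → p ≠ (1, 1)) : ∃ x, Tendsto (tr s) atTop (𝓝 x) := by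
  cases s with
  | nil => exact ⟨1, tendsto_const_nhds.congr fun L => (tr_nil L).symm⟩
  | cons p s =>
    have hp := h p (by simp)
    have hs : ∀ q ∈ s, 1 ≤ q.1 ∧ ‖q.2‖ = 1 := fun q hq => h q (by simp [hq])
    by_cases h2 : 2 ≤ p.1
    · have hsum : Summable fun l : ℕ => p.2 ^ (l + 1) / ((l + 1 : ℕ) : ℂ) ^ p.1 * tr s l := by
        refine Summable.of_norm_bounded (summable_q.mul_left (2 ^ s.length)) fun l => ?_
        have hL : (0 : ℝ) < (l : ℝ) + 1 := by positivity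
        rw [norm_mul, norm_div, norm_pow, norm_pow, hp.2, one_pow, Complex.norm_natCast]
        have h3 : (1 : ℝ) / ((l + 1 : ℕ) : ℝ) ^ p.1 ≤ (((l : ℝ) + 1) ^ 2)⁻¹ := by
          rw [one_div]
          apply inv_anti₀ (by positivity)
          push_cast
          exact pow_le_pow_right₀ (by linarith [Nat.cast_nonneg (α := ℝ) l]) h2
        calc _ ≤ (((l : ℝ) + 1) ^ 2)⁻¹ * (2 ^ s.length * Real.sqrt ((l : ℝ) + 1)) :=
              mul_le_mul h3 (norm_tr_le' s hs l) (norm_nonneg _) (by positivity)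
          _ = 2 ^ s.length * ((((l : ℝ) + 1) ^ 2)⁻¹ * Real.sqrt ((l : ℝ) + 1)) := by ring
          _ = _ := by rw [sq_div _ hL]
      refine ⟨_, hsum.hasSum.tendsto_sum_nat.congr fun L => ?_⟩
      rw [tr_cons]
    · have h1 : p.1 = 1 := by omega
      have hz : p.2 ≠ 1 := fun hz => hh p s rfl (Prod.ext h1 hz)
      set z := p.2 with hzdef
      let g : ℕ → ℂ := fun l => tr s l / ((l + 1 : ℕ) : ℂ)
      have hg : ∀ L, tr (p :: s) L = ∑ l ∈ range L, z ^ (l + 1) * g l := by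
        intro L
        rw [tr_cons]
        refine Finset.sum_congr rfl fun l _ => ?_
        rw [h1, pow_one]
        simp only [g]
        ring
      have hg0 : Tendsto (fun m => (∑ i ∈ range m, z ^ (i + 1)) * g m) atTop (𝓝 0) := by
        have h5 : Tendsto (fun m : ℕ => 2 / ‖z - 1‖ * (2 ^ s.length * (Real.sqrt ((m : ℝ) + 1))⁻¹)) atTop
            (𝓝 (2 / ‖z - 1‖ * (2 ^ s.length * 0))) := by
          refine Tendsto.const_mul _ (Tendsto.const_mul _ ?_)
          refine Tendsto.inv_tendsto_atTop ?_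
          refine Real.tendsto_sqrt_atTop.comp ?_
          exact tendsto_atTop_add_const_right _ _ tendsto_natCast_atTop_atTop
        rw [mul_zero, mul_zero] at h5
        refine squeeze_zero_norm (fun m => ?_) h5
        rw [norm_mul]
        refine mul_le_mul (geom_bound z hp.2 hz m) ?_ (norm_nonneg _) (by positivity)
        simp only [g]
        rw [norm_div, Complex.norm_natCast]
        have hL : (0 : ℝ) < (m : ℝ) + 1 := by positivity
        have h3 : Real.sqrt ((m : ℝ) + 1) * Real.sqrt ((m : ℝ) + 1) = (m : ℝ) + 1 :=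
          Real.mul_self_sqrt hL.le
        have h4 : 0 < Real.sqrt ((m : ℝ) + 1) := Real.sqrt_pos.2 hL
        push_cast
        rw [div_le_iff₀ hL]
        calc _ ≤ 2 ^ s.length * Real.sqrt ((m : ℝ) + 1) := norm_tr_le' s hs m
          _ = _ := by
            field_simp
            nlinarith
      have hsum : Summable fun l : ℕ => (∑ i ∈ range (l + 1), z ^ (i + 1)) * (g (l + 1) - g l) := by
        refine Summable.of_norm_bounded (summable_q.mul_left (2 / ‖z - 1‖ * (2 * 2 ^ s.length))) fun l => ?_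
        rw [norm_mul, mul_assoc (2 / ‖z - 1‖)]
        refine mul_le_mul (geom_bound z hp.2 hz (l + 1)) ?_ (norm_nonneg _) (by positivity)
        have hL : (0 : ℝ) < (l : ℝ) + 1 := by positivity
        have e : g (l + 1) - g l = (tr s (l + 1) - tr s l) / ((l : ℂ) + 2) -
            tr s l / (((l : ℂ) + 1) * ((l : ℂ) + 2)) := by
          simp only [g]
          have h6 : (l : ℂ) + 1 ≠ 0 := by exact_mod_cast Nat.succ_ne_zero l
          have h7 : (l : ℂ) + 2 ≠ 0 := by exact_mod_cast Nat.succ_ne_zero (l + 1)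
          push_cast
          have h8 : (l : ℂ) + 1 + 1 ≠ 0 := by rwa [add_assoc, one_add_one_eq_two]
          field_simp
          ring
        have n2 : ‖(l : ℂ) + 2‖ = (l : ℝ) + 2 := by
          have : ((l + 2 : ℕ) : ℂ) = (l : ℂ) + 2 := by push_cast; ring
          rw [← this, Complex.norm_natCast]
          push_cast
          ring
        have n1 : ‖(l : ℂ) + 1‖ = (l : ℝ) + 1 := by
          have : ((l + 1 : ℕ) : ℂ) = (l : ℂ) + 1 := by push_cast; ring
          rw [← this, Complex.norm_natCast]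
          push_cast
          ring
        rw [e]
        refine (norm_sub_le _ _).trans ?_
        rw [norm_div, norm_div, norm_mul, n1, n2]
        have h3 : Real.sqrt ((l : ℝ) + 1) * Real.sqrt ((l : ℝ) + 1) = (l : ℝ) + 1 :=
          Real.mul_self_sqrt hL.le
        have h4 : 0 < Real.sqrt ((l : ℝ) + 1) := Real.sqrt_pos.2 hL
        have b1 : ‖tr s (l + 1) - tr s l‖ / ((l : ℝ) + 2) ≤
            2 ^ s.length * (((l : ℝ) + 1) * Real.sqrt ((l : ℝ) + 1))⁻¹ := by
          rw [div_le_iff₀ (by positivity)]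
          refine (diff_bound s hs l).trans ?_
          rw [mul_inv]
          have h9 : (1 : ℝ) ≤ ((l : ℝ) + 1)⁻¹ * ((l : ℝ) + 2) := by
            rw [inv_mul_eq_div, le_div_iff₀ hL]
            linarith
          calc 2 ^ s.length * (Real.sqrt ((l : ℝ) + 1))⁻¹
              = 2 ^ s.length * (Real.sqrt ((l : ℝ) + 1))⁻¹ * 1 := (mul_one _).symm
            _ ≤ 2 ^ s.length * (Real.sqrt ((l : ℝ) + 1))⁻¹ * (((l : ℝ) + 1)⁻¹ * ((l : ℝ) + 2)) :=
                mul_le_mul_of_nonneg_left h9 (by positivity)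
            _ = _ := by ring
        have b2 : ‖tr s l‖ / (((l : ℝ) + 1) * ((l : ℝ) + 2)) ≤
            2 ^ s.length * (((l : ℝ) + 1) * Real.sqrt ((l : ℝ) + 1))⁻¹ := by
          rw [← sq_div _ hL, div_le_iff₀ (by positivity)]
          refine (norm_tr_le' s hs l).trans ?_
          have h9 : (1 : ℝ) ≤ (((l : ℝ) + 1) ^ 2)⁻¹ * (((l : ℝ) + 1) * ((l : ℝ) + 2)) := by
            rw [inv_mul_eq_div, le_div_iff₀ (by positivity)]
            nlinarith
          calc 2 ^ s.length * Real.sqrt ((l : ℝ) + 1)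
              = 2 ^ s.length * Real.sqrt ((l : ℝ) + 1) * 1 := (mul_one _).symm
            _ ≤ 2 ^ s.length * Real.sqrt ((l : ℝ) + 1) *
                ((((l : ℝ) + 1) ^ 2)⁻¹ * (((l : ℝ) + 1) * ((l : ℝ) + 2))) :=
                mul_le_mul_of_nonneg_left h9 (by positivity)
            _ = _ := by ring
        calc _ ≤ _ := add_le_add b1 b2
          _ = _ := by ring
      refine ⟨_, (hg0.sub hsum.hasSum.tendsto_sum_nat).congr fun L => ?_⟩
      rw [hg, abel_id]

theorem tendsto_tr (s : List (ℕ × ℂ)) (h : ∀ p ∈ s, 1 ≤ p.1 ∧ ‖p.2‖ = 1)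
    (hh : ∀ p t, s = p :: t → p ≠ (1, 1)) : Tendsto (tr s) atTop (𝓝 (Li s)) := by
  obtain ⟨x, hx⟩ := converges s h hh
  rw [Li, hx.limUnder_eq]
  exact hx

/-- stuffle product -/
noncomputable def stz : List (ℕ × ℂ) → List (ℕ × ℂ) → List (List (ℕ × ℂ))
  | [], t => [t]
  | (a :: s), [] => [a :: s]
  | (a :: s), (b :: t) => (stz s (b :: t)).map (List.cons a) ++ (stz (a :: s) t).map (List.cons b) ++
      (stz s t).map (List.cons (a.1 + b.1, a.2 * b.2))
termination_by s t => s.length + t.length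

theorem sum_tr_succ (a : ℕ × ℂ) (L : List (List (ℕ × ℂ))) (N : ℕ) :
    ((L.map (List.cons a)).map (fun u => tr u (N + 1))).sum =
      ((L.map (List.cons a)).map (fun u => tr u N)).sum +
        a.2 ^ (N + 1) / ((N + 1 : ℕ) : ℂ) ^ a.1 * (L.map (fun u => tr u N)).sum := by
  induction L with
  | nil => simp
  | cons u L ih =>
    simp only [List.map_cons, List.sum_cons] at ih ⊢
    rw [ih, tr_cons_succ]
    ring

theorem sum_tr_zero (a : ℕ × ℂ) (L : List (List (ℕ × ℂ))) :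
    ((L.map (List.cons a)).map (fun u => tr u 0)).sum = 0 := by
  induction L with
  | nil => simp
  | cons u L ih =>
    simp only [List.map_cons, List.sum_cons] at ih ⊢
    rw [ih, tr_cons_zero]
    ring

theorem tr_mul (s t : List (ℕ × ℂ)) (N : ℕ) :
    tr s N * tr t N = ((stz s t).map (fun u => tr u N)).sum := by
  induction s, t using stz.induct generalizing N with
  | case1 t => simp [stz, tr_nil]
  | case2 a s => simp [stz, tr_nil]
  | case3 a s b t ih1 ih2 ih3 =>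
    rw [stz]
    simp only [List.map_append, List.sum_append]
    induction N with
    | zero =>
      rw [tr_cons_zero, tr_cons_zero]
      have e1 := sum_tr_zero a (stz s (b :: t))
      have e2 := sum_tr_zero b (stz (a :: s) t)
      have e3 := sum_tr_zero (a.1 + b.1, a.2 * b.2) (stz s t)
      rw [e1, e2, e3]
      ring
    | succ N ihN =>
      have e1 := sum_tr_succ a (stz s (b :: t)) N
      have e2 := sum_tr_succ b (stz (a :: s) t) N
      have e3 := sum_tr_succ (a.1 + b.1, a.2 * b.2) (stz s t) N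
      rw [e1, e2, e3, ← ih1 N, ← ih2 N, ← ih3 N, tr_cons_succ, tr_cons_succ]
      simp only
      rw [pow_add _ a.1 b.1, mul_pow]
      have h0 : ((N + 1 : ℕ) : ℂ) ≠ 0 := by exact_mod_cast Nat.succ_ne_zero N
      have e4 : a.2 ^ (N + 1) * b.2 ^ (N + 1) / (((N + 1 : ℕ) : ℂ) ^ a.1 * ((N + 1 : ℕ) : ℂ) ^ b.1) =
        (a.2 ^ (N + 1) / ((N + 1 : ℕ) : ℂ) ^ a.1) * (b.2 ^ (N + 1) / ((N + 1 : ℕ) : ℂ) ^ b.1) := by
        rw [div_mul_div_comm]
      rw [e4]
      linear_combination ihN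

end Pool.Agent.Q217.CD.Lev
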