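import Pool.Agent.Q217.CD.Level
import Pool.Agent.Q217.CD.Basic

/-! The spaces `Z_w(N)`. -/

set_option autoImplicit false

open Finset Filter Topology

namespace Pool.Agent.Q217.CD.Lev

/-- the indices of weight `w` and level `N` -/
def Ix (N w : ℕ) (s : List (ℕ × ℂ)) : Prop :=
  s ≠ [] ∧ (∀ p ∈ s, 1 ≤ p.1 ∧ p.2 ^ N = 1) ∧ (∀ p t, s = p :: t → p ≠ (1, 1)) ∧
    (s.map Prod.fst).sum = w

/-- the cyclotomic multiple zeta values of level `N` and weight `w` -/
def ZS (N w : ℕ) : Set ℂ := {x | ∃ s : List (ℕ × ℂ), Ix N w s ∧ x = Li s}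

theorem tendsto_Ix {N w : ℕ} (hN : N ≠ 0) {s : List (ℕ × ℂ)} (h : Ix N w s) :
    Tendsto (tr s) atTop (𝓝 (Li s)) :=
  tendsto_tr s (fun p hp => ⟨(h.2.1 p hp).1, Complex.norm_eq_one_of_pow_eq_one (h.2.1 p hp).2 hN⟩) h.2.2.1

theorem stz_mem {N : ℕ} (s t : List (ℕ × ℂ)) (hs : ∀ p ∈ s, 1 ≤ p.1 ∧ p.2 ^ N = 1)
    (ht : ∀ p ∈ t, 1 ≤ p.1 ∧ p.2 ^ N = 1) : ∀ u ∈ stz s t, ∀ p ∈ u, 1 ≤ p.1 ∧ p.2 ^ N = 1 := by
  induction s, t using stz.induct with
  | case1 t =>
    intro u hu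
    rw [stz, List.mem_singleton] at hu
    rw [hu]
    exact ht
  | case2 a s =>
    intro u hu
    rw [stz, List.mem_singleton] at hu
    rw [hu]
    exact hs
  | case3 a s b t ih1 ih2 ih3 =>
    have ha := hs a (by simp)
    have hb := ht b (by simp)
    have hs' : ∀ p ∈ s, 1 ≤ p.1 ∧ p.2 ^ N = 1 := fun c hc => hs c (by simp [hc])
    have ht' : ∀ p ∈ t, 1 ≤ p.1 ∧ p.2 ^ N = 1 := fun c hc => ht c (by simp [hc])
    intro u hu c hc
    rw [stz] at hu
    simp only [List.mem_append, List.mem_map] at hu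
    rcases hu with (⟨v, hv, rfl⟩ | ⟨v, hv, rfl⟩) | ⟨v, hv, rfl⟩
    · rcases List.mem_cons.1 hc with rfl | hc
      · exact ha
      · exact ih1 hs' ht v hv c hc
    · rcases List.mem_cons.1 hc with rfl | hc
      · exact hb
      · exact ih2 hs ht' v hv c hc
    · rcases List.mem_cons.1 hc with rfl | hc
      · exact ⟨by show 1 ≤ a.1 + b.1; omega, by show (a.2 * b.2) ^ N = 1; rw [mul_pow, ha.2, hb.2, one_mul]⟩
      · exact ih3 hs' ht' v hv c hc

theorem stz_sum (s t : List (ℕ × ℂ)) : ∀ u ∈ stz s t,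
    (u.map Prod.fst).sum = (s.map Prod.fst).sum + (t.map Prod.fst).sum := by
  induction s, t using stz.induct with
  | case1 t => simp [stz]
  | case2 a s => simp [stz]
  | case3 a s b t ih1 ih2 ih3 =>
    intro u hu
    rw [stz] at hu
    simp only [List.mem_append, List.mem_map] at hu
    rcases hu with (⟨v, hv, rfl⟩ | ⟨v, hv, rfl⟩) | ⟨v, hv, rfl⟩
    · have := ih1 v hv
      simp only [List.map_cons, List.sum_cons] at this ⊢
      omega
    · have := ih2 v hv
      simp only [List.map_cons, List.sum_cons] at this ⊢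
      omega
    · have := ih3 v hv
      simp only [List.map_cons, List.sum_cons] at this ⊢
      omega

theorem stz_Ix {N m n : ℕ} {s t : List (ℕ × ℂ)} (hs : Ix N m s) (ht : Ix N n t) :
    ∀ u ∈ stz s t, Ix N (m + n) u := by
  intro u hu
  have h1 := stz_mem s t hs.2.1 ht.2.1 u hu
  have h2 := stz_sum s t u hu
  obtain ⟨a, s, rfl⟩ := List.exists_cons_of_ne_nil hs.1
  obtain ⟨b, t, rfl⟩ := List.exists_cons_of_ne_nil ht.1
  have ha := hs.2.1 a (by simp)
  have hb := ht.2.1 b (by simp)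
  rw [stz] at hu
  simp only [List.mem_append, List.mem_map] at hu
  refine ⟨?_, h1, ?_, by rw [h2, hs.2.2.2, ht.2.2.2]⟩
  · rcases hu with (⟨v, hv, rfl⟩ | ⟨v, hv, rfl⟩) | ⟨v, hv, rfl⟩ <;> simp
  · intro p l hp
    rcases hu with (⟨v, hv, rfl⟩ | ⟨v, hv, rfl⟩) | ⟨v, hv, rfl⟩
    · rw [← (List.cons.inj hp).1]
      exact hs.2.2.1 a s rfl
    · rw [← (List.cons.inj hp).1]
      exact ht.2.2.1 b t rfl
    · rw [← (List.cons.inj hp).1]
      intro h
      have := congrArg Prod.fst h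
      simp only at this
      omega

theorem tendsto_list {α : Type*} (L : List α) (f : α → ℕ → ℂ) (g : α → ℂ)
    (h : ∀ u ∈ L, Tendsto (f u) atTop (𝓝 (g u))) :
    Tendsto (fun N => (L.map (fun u => f u N)).sum) atTop (𝓝 ((L.map g).sum)) := by
  induction L with
  | nil => simp
  | cons u L ih =>
    simp only [List.map_cons, List.sum_cons]
    exact (h u (by simp)).add (ih fun v hv => h v (by simp [hv]))

theorem Li_mul {N m n : ℕ} (hN : N ≠ 0) {s t : List (ℕ × ℂ)} (hs : Ix N m s) (ht : Ix N n t) :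
    Li s * Li t = ((stz s t).map Li).sum := by
  have h1 := (tendsto_Ix hN hs).mul (tendsto_Ix hN ht)
  have h2 := tendsto_list (stz s t) tr Li fun u hu => tendsto_Ix hN (stz_Ix hs ht u hu)
  refine tendsto_nhds_unique (h1.congr fun L => ?_) h2
  exact tr_mul s t L

variable (K : Type*) [Field K] [Algebra K ℂ]

theorem ZS_mul (N m n : ℕ) (hN : N ≠ 0) :
    Submodule.span K (ZS N m) * Submodule.span K (ZS N n) ≤ Submodule.span K (ZS N (m + n)) := by
  rw [Submodule.span_mul_span, Submodule.span_le]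
  rintro _ ⟨_, ⟨s, hs, rfl⟩, _, ⟨t, ht, rfl⟩, rfl⟩
  simp only [SetLike.mem_coe]
  rw [Li_mul hN hs ht]
  refine list_sum_mem fun z hz => ?_
  rw [List.mem_map] at hz
  obtain ⟨u, hu, rfl⟩ := hz
  exact Submodule.subset_span ⟨u, stz_Ix hs ht u hu, rfl⟩

theorem ZS_finite (N w : ℕ) (hN : N ≠ 0) : (ZS N w).Finite := by
  have hA : {p : ℕ × ℂ | p.1 ≤ w ∧ p.2 ^ N = 1}.Finite := by
    have h1 : {z : ℂ | z ^ N = 1}.Finite := by
      refine ((Polynomial.nthRoots N (1 : ℂ)).toFinset.finite_toSet).subset ?_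
      intro z hz
      simp only [Finset.mem_coe, Multiset.mem_toFinset]
      exact (Polynomial.mem_nthRoots (Nat.pos_of_ne_zero hN)).2 hz
    exact ((Set.finite_Iic w).prod h1).subset fun p hp => ⟨hp.1, hp.2⟩
  have : Finite {p : ℕ × ℂ | p.1 ≤ w ∧ p.2 ^ N = 1} := hA
  have hB := (List.finite_length_le {p : ℕ × ℂ | p.1 ≤ w ∧ p.2 ^ N = 1} w).image
    (fun l => Li (l.map Subtype.val))
  refine hB.subset ?_
  rintro x ⟨s, hs, rfl⟩
  have hle : ∀ p ∈ s, p.1 ≤ w := by
    intro p hp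
    rw [← hs.2.2.2]
    exact List.single_le_sum (by simp) _ (List.mem_map_of_mem hp)
  have hlen : s.length ≤ w := by
    rw [← hs.2.2.2]
    have := List.length_le_sum_of_one_le (s.map Prod.fst) (by
      intro a ha
      rw [List.mem_map] at ha
      obtain ⟨p, hp, rfl⟩ := ha
      exact (hs.2.1 p hp).1)
    rwa [List.length_map] at this
  refine ⟨s.attach.map fun p => ⟨p.1, hle p.1 p.2, (hs.2.1 p.1 p.2).2⟩, ?_, ?_⟩
  · simp only [Set.mem_ofPred_eq, List.length_map, List.length_attach]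
    exact hlen
  · simp only [List.map_map, Function.comp_def]
    congr 1
    exact List.attach_map_subtype_val s

end Pool.Agent.Q217.CD.Lev
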