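import Pool.Agent.Q217.CD.Level2
import Pool.Agent.TH507.DS.B

/-! Multiple Clausen values: product, values of depth one. -/

set_option autoImplicit false

open Finset Filter Topology

namespace Pool.Agent.Q217.CD.Lev

open Pool.Agent.TH507.DS (word decA sh Vd Lb Lb_mul Lb_nil Lb_cons coeff_word Vd_word word_decA decA_pos sh_Vd sh_ne
  coeff_zero_Lb word_cons word_nil coeff_sh)
open Pool.Agent.TH507.WD (hr hr_nil hr_cons hr_range)

/-- `e^(πi/3)` -/
noncomputable def om : ℂ := Complex.exp (Real.pi * Complex.I / 3)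

theorem norm_om : ‖om‖ = 1 := by
  rw [om, show (Real.pi : ℂ) * Complex.I / 3 = ((Real.pi / 3 : ℝ) : ℂ) * Complex.I by push_cast; ring]
  exact Complex.norm_exp_ofReal_mul_I _

theorem om_ne : om ≠ 1 := by
  intro h
  have h1 := congrArg Complex.im h
  rw [om, show (Real.pi : ℂ) * Complex.I / 3 = ((Real.pi / 3 : ℝ) : ℂ) * Complex.I by push_cast; ring,
    Complex.exp_ofReal_mul_I_im, Complex.one_im, Real.sin_pi_div_three] at h1
  have : 0 < Real.sqrt 3 := by positivity
  linarith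

/-- the list of the pairs of a multiple Clausen value -/
noncomputable def cl : List ℕ → List (ℕ × ℂ)
  | [] => []
  | a :: s => (a, om) :: s.map (fun b => (b, 1))

theorem tr_hr (s : List ℕ) (L : ℕ) : tr (s.map (fun b => (b, (1 : ℂ)))) L = ((hr s (L + 1) : ℝ) : ℂ) := by
  induction s generalizing L with
  | nil => simp [tr_nil, hr_nil]
  | cons b s ih =>
    rw [List.map_cons, tr_cons, ← hr_range]
    push_cast
    refine Finset.sum_congr rfl fun l _ => ?_
    rw [ih]
    simp only [one_pow]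
    ring

theorem tendsto_cl {a : ℕ} {s : List ℕ} (h : ∀ b ∈ a :: s, 1 ≤ b) :
    Tendsto (tr (cl (a :: s))) atTop (𝓝 (Li (cl (a :: s)))) := by
  refine tendsto_tr _ ?_ ?_
  · intro p hp
    simp only [cl, List.mem_cons, List.mem_map] at hp
    rcases hp with rfl | ⟨b, hb, rfl⟩
    · exact ⟨h a (by simp), norm_om⟩
    · exact ⟨h b (by simp [hb]), norm_one⟩
  · intro p t hp
    rw [cl] at hp
    rw [← (List.cons.inj hp).1]
    intro h1
    exact om_ne (congrArg Prod.snd h1)

/-- the partial sums of the power series at `om` -/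
theorem tendsto_ps {a : ℕ} {s : List ℕ} (h : ∀ b ∈ a :: s, 1 ≤ b) :
    Tendsto (fun M => ∑ n ∈ range M, ((PowerSeries.coeff n (Lb (word (a :: s))) : ℝ) : ℂ) * om ^ n) atTop
      (𝓝 (Li (cl (a :: s)))) := by
  rw [← tendsto_add_atTop_iff_nat 1]
  refine (tendsto_cl h).congr fun L => ?_
  rw [cl, tr_cons, Finset.sum_range_succ']
  have h0 : PowerSeries.coeff 0 (Lb (word (a :: s))) = 0 := coeff_zero_Lb (by rw [word_cons]; simp)
  rw [h0, Complex.ofReal_zero, zero_mul, add_zero]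
  refine Finset.sum_congr rfl fun l _ => ?_
  rw [tr_hr, coeff_word a s (h a (by simp)) (fun b hb => h b (by simp [hb]))]
  push_cast
  ring

/-- the value at a nonempty word -/
noncomputable def vw (w : List Bool) : ℂ := Li (cl (decA 0 w))

theorem tendsto_vw {w : List Bool} (hw : Vd w) (hne : w ≠ []) :
    Tendsto (fun M => ∑ n ∈ range M, ((PowerSeries.coeff n (Lb w) : ℝ) : ℂ) * om ^ n) atTop (𝓝 (vw w)) := by
  have h1 : word (decA 0 w) = w := by
    rw [word_decA w 0 hw (Or.inr rfl)]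
    rfl
  have h2 : decA 0 w ≠ [] := by
    intro h
    rw [h, word_nil] at h1
    exact hne h1.symm
  obtain ⟨a, s, hs⟩ := List.exists_cons_of_ne_nil h2
  have h3 := tendsto_ps (a := a) (s := s) (by rw [← hs]; exact decA_pos w 0)
  rw [← hs, h1] at h3
  exact h3

theorem summable_vw {w : List Bool} (hw : Vd w) (hne : w ≠ []) {x : ℂ} (hx : ‖x‖ < 1) :
    Summable fun n => ((PowerSeries.coeff n (Lb w) : ℝ) : ℂ) * om ^ n * x ^ n :=
  summable_powerSeries_of_norm_lt_one (tendsto_vw hw hne).cauchySeq hx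

theorem abel_vw {w : List Bool} (hw : Vd w) (hne : w ≠ []) :
    Tendsto (fun x : ℂ => ∑' n, ((PowerSeries.coeff n (Lb w) : ℝ) : ℂ) * om ^ n * x ^ n)
      ((𝓝[<] 1).map Complex.ofReal) (𝓝 (vw w)) :=
  Complex.tendsto_tsum_powerSeries_nhdsWithin_lt (tendsto_vw hw hne)

theorem tsum_list {α : Type*} (L : List α) (f : α → ℕ → ℂ) (h : ∀ u ∈ L, Summable (f u)) :
    Summable (fun n => (L.map (fun u => f u n)).sum) ∧
      ∑' n, (L.map (fun u => f u n)).sum = (L.map (fun u => ∑' n, f u n)).sum := by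
  induction L with
  | nil => simp
  | cons u L ih =>
    obtain ⟨h1, h2⟩ := ih fun v hv => h v (by simp [hv])
    simp only [List.map_cons, List.sum_cons]
    exact ⟨(h u (by simp)).add h1, by rw [(h u (by simp)).tsum_add h1, h2]⟩

theorem tendsto_list' {α β : Type*} (l : Filter β) (L : List α) (f : α → β → ℂ) (g : α → ℂ)
    (h : ∀ u ∈ L, Tendsto (f u) l (𝓝 (g u))) :
    Tendsto (fun N => (L.map (fun u => f u N)).sum) l (𝓝 ((L.map g).sum)) := by
  induction L with
  | nil => simpa using tendsto_const_nhds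
  | cons u L ih =>
    simp only [List.map_cons, List.sum_cons]
    exact (h u (by simp)).add (ih fun v hv => h v (by simp [hv]))

theorem vw_mul {u v : List Bool} (hu : Vd u) (hv : Vd v) (hu0 : u ≠ []) (hv0 : v ≠ []) :
    vw u * vw v = ((sh u v).map vw).sum := by
  have hw : ∀ w ∈ sh u v, Vd w ∧ w ≠ [] := fun w hw =>
    ⟨sh_Vd u v hu hv w hw, fun h => hu0 (sh_ne u v w hw h).1⟩
  have h1 := (abel_vw hu hu0).mul (abel_vw hv hv0)
  have h2 := tendsto_list' ((𝓝[<] (1 : ℝ)).map Complex.ofReal) (sh u v)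
    (fun w x => ∑' n, ((PowerSeries.coeff n (Lb w) : ℝ) : ℂ) * om ^ n * x ^ n) vw
    (fun w h => abel_vw (hw w h).1 (hw w h).2)
  refine tendsto_nhds_unique (h1.congr' ?_) h2
  rw [Filter.EventuallyEq, Filter.eventually_map]
  have h3 : ∀ᶠ x : ℝ in 𝓝[<] (1 : ℝ), x ∈ Set.Ioo (0 : ℝ) 1 := Ioo_mem_nhdsLT zero_lt_one
  filter_upwards [h3] with x hx
  have hx1 : ‖(x : ℂ)‖ < 1 := by
    rw [Complex.norm_real, Real.norm_of_nonneg hx.1.le]
    exact hx.2
  rw [tsum_mul_tsum_eq_tsum_sum_antidiagonal_of_summable_norm (summable_vw hu hu0 hx1).norm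
    (summable_vw hv hv0 hx1).norm]
  rw [← (tsum_list (sh u v) (fun w n => ((PowerSeries.coeff n (Lb w) : ℝ) : ℂ) * om ^ n * (x : ℂ) ^ n)
    (fun w h => summable_vw (hw w h).1 (hw w h).2 hx1)).2]
  refine tsum_congr fun n => ?_
  have h4 := coeff_sh hu hv n
  have h5 : ∑ p ∈ Finset.HasAntidiagonal.antidiagonal n, ((PowerSeries.coeff p.1 (Lb u) : ℝ) : ℂ) * om ^ p.1 * (x : ℂ) ^ p.1 *
      (((PowerSeries.coeff p.2 (Lb v) : ℝ) : ℂ) * om ^ p.2 * (x : ℂ) ^ p.2) =
      ((∑ p ∈ Finset.HasAntidiagonal.antidiagonal n, PowerSeries.coeff p.1 (Lb u) * PowerSeries.coeff p.2 (Lb v) : ℝ) : ℂ) *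
        om ^ n * (x : ℂ) ^ n := by
    rw [Complex.ofReal_sum, Finset.sum_mul, Finset.sum_mul]
    refine Finset.sum_congr rfl fun p hp => ?_
    rw [Finset.HasAntidiagonal.mem_antidiagonal] at hp
    rw [← hp]
    push_cast
    ring
  rw [h5, h4]
  clear h5 h4 h1 h2
  induction sh u v with
  | nil => simp
  | cons w L ih =>
    simp only [List.map_cons, List.sum_cons] at ih ⊢
    rw [← ih]
    push_cast
    ring

end Pool.Agent.Q217.CD.Lev
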