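import Pool.Agent.Q217.CD.Level3
import Pool.Agent.H297R2.BakerThm

/-! The spaces `C_w`, and weight one. -/

set_option autoImplicit false

open Finset Filter Topology Module

namespace Pool.Agent.Q217.CD.Lev

open Pool.Agent.TH507.DS (word decA sh Vd Vd_word word_decA decA_pos sh_Vd sh_ne word_cons word_nil)

/-- the multiple Clausen values of weight `w` -/
def CS (w : ℕ) : Set ℂ := {x | ∃ (a : ℕ) (s : List ℕ), (∀ b ∈ a :: s, 1 ≤ b) ∧ (a :: s).sum = w ∧
    x = Li ((a, om) :: s.map (fun b => (b, 1)))}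

theorem decA_rep (m : ℕ) (w : List Bool) (c : ℕ) :
    decA c (List.replicate m false ++ true :: w) = (c + m + 1) :: decA 0 w := by
  induction m generalizing c with
  | zero => rw [List.replicate_zero, List.nil_append, decA, add_zero]
  | succ m ih =>
    rw [List.replicate_succ, List.cons_append, decA, ih]
    congr 1
    omega

theorem decA_word (l : List ℕ) (h : ∀ b ∈ l, 1 ≤ b) : decA 0 (word l) = l := by
  induction l with
  | nil => rw [word_nil, decA]
  | cons a l ih =>
    have ha := h a (by simp)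
    rw [word_cons, decA_rep, ih fun b hb => h b (by simp [hb])]
    congr 1
    omega

theorem length_word (l : List ℕ) (h : ∀ b ∈ l, 1 ≤ b) : (word l).length = l.sum := by
  induction l with
  | nil => rw [word_nil]; rfl
  | cons a l ih =>
    have ha := h a (by simp)
    rw [word_cons, List.length_append, List.length_replicate, List.length_cons,
      ih fun b hb => h b (by simp [hb]), List.sum_cons]
    omega

theorem sh_length (u v : List Bool) : ∀ w ∈ sh u v, w.length = u.length + v.length := by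
  induction u, v using sh.induct with
  | case1 v => intro w hw; rw [sh, List.mem_singleton] at hw; rw [hw]; simp
  | case2 a u => intro w hw; rw [sh, List.mem_singleton] at hw; rw [hw]; simp
  | case3 a u b v ih1 ih2 =>
    intro w hw
    rw [sh] at hw
    simp only [List.mem_append, List.mem_map] at hw
    rcases hw with ⟨x, hx, rfl⟩ | ⟨x, hx, rfl⟩
    · have := ih1 x hx
      simp only [List.length_cons] at this ⊢
      omega
    · have := ih2 x hx
      simp only [List.length_cons] at this ⊢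
      omega

theorem CS_iff (w : ℕ) (x : ℂ) : x ∈ CS w ↔ ∃ u : List Bool, Vd u ∧ u ≠ [] ∧ u.length = w ∧ x = vw u := by
  constructor
  · rintro ⟨a, s, h1, h2, rfl⟩
    refine ⟨word (a :: s), Vd_word _, by rw [word_cons]; simp, by rw [length_word _ h1, h2], ?_⟩
    rw [vw, decA_word _ h1, cl]
  · rintro ⟨u, h1, h2, h3, rfl⟩
    have e1 : word (decA 0 u) = u := by
      rw [word_decA u 0 h1 (Or.inr rfl)]
      rfl
    have e2 : decA 0 u ≠ [] := by
      intro h
      rw [h, word_nil] at e1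
      exact h2 e1.symm
    obtain ⟨a, s, hs⟩ := List.exists_cons_of_ne_nil e2
    have e3 : ∀ b ∈ a :: s, 1 ≤ b := by rw [← hs]; exact decA_pos u 0
    refine ⟨a, s, e3, ?_, ?_⟩
    · rw [← length_word _ e3, ← hs, e1, h3]
    · rw [vw, hs, cl]

variable (K : Type*) [Field K] [Algebra K ℂ]

theorem CS_mul (m n : ℕ) :
    Submodule.span K (CS m) * Submodule.span K (CS n) ≤ Submodule.span K (CS (m + n)) := by
  rw [Submodule.span_mul_span, Submodule.span_le]
  rintro _ ⟨x, hx, y, hy, rfl⟩
  obtain ⟨u, h1, h2, h3, rfl⟩ := (CS_iff m x).1 hx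
  obtain ⟨v, k1, k2, k3, rfl⟩ := (CS_iff n y).1 hy
  simp only [SetLike.mem_coe]
  rw [vw_mul h1 k1 h2 k2]
  refine list_sum_mem fun z hz => ?_
  rw [List.mem_map] at hz
  obtain ⟨w, hw, rfl⟩ := hz
  refine Submodule.subset_span ((CS_iff _ _).2 ⟨w, sh_Vd u v h1 k1 w hw, fun h => h2 (sh_ne u v w hw h).1, ?_, rfl⟩)
  rw [sh_length u v w hw, h3, k3]

theorem CS_finite (w : ℕ) : (CS w).Finite := by
  refine ((List.finite_length_le Bool w).image vw).subset ?_
  intro x hx
  obtain ⟨u, _, _, h3, rfl⟩ := (CS_iff w x).1 hx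
  exact ⟨u, h3.le, rfl⟩

theorem om_pow : om ^ 6 = 1 := by
  rw [om, ← Complex.exp_nat_mul]
  rw [show ((6 : ℕ) : ℂ) * (Real.pi * Complex.I / 3) = 2 * Real.pi * Complex.I by push_cast; ring]
  exact Complex.exp_two_pi_mul_I

theorem CS_sub (w : ℕ) : CS w ⊆ ZS 6 w := by
  rintro x ⟨a, s, h1, h2, rfl⟩
  refine ⟨(a, om) :: s.map (fun b => (b, 1)), ⟨by simp, ?_, ?_, ?_⟩, rfl⟩
  · intro p hp
    simp only [List.mem_cons, List.mem_map] at hp
    rcases hp with rfl | ⟨b, hb, rfl⟩
    · exact ⟨h1 a (by simp), om_pow⟩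
    · exact ⟨h1 b (by simp [hb]), one_pow 6⟩
  · intro p t hp
    rw [← (List.cons.inj hp).1]
    intro h
    exact om_ne (congrArg Prod.snd h)
  · rw [← h2]
    simp [Function.comp_def]

/-- depth one, weight one -/
theorem Li_one (z : ℂ) (h1 : ‖z‖ = 1) (hz : z ≠ 1) : Li [(1, z)] = -Complex.log (1 - z) := by
  have ht : Tendsto (fun M => ∑ n ∈ range M, z ^ n / (n : ℂ)) atTop (𝓝 (Li [(1, z)])) := by
    rw [← tendsto_add_atTop_iff_nat 1]
    refine (tendsto_tr [(1, z)] (by simp [h1]) (by
      intro p t hp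
      rw [← (List.cons.inj hp).1]
      intro h
      exact hz (congrArg Prod.snd h))).congr fun L => ?_
    rw [tr_cons, Finset.sum_range_succ']
    simp [tr_nil]
  have h2 := Complex.tendsto_tsum_powerSeries_nhdsWithin_lt ht
  have h3 : Tendsto (fun x : ℂ => -Complex.log (1 - z * x)) ((𝓝[<] (1 : ℝ)).map Complex.ofReal)
      (𝓝 (-Complex.log (1 - z))) := by
    have h4 : 1 - z ∈ Complex.slitPlane := by
      rw [Complex.mem_slitPlane_iff]
      left
      have h5 : z.re ≤ 1 := by
        rw [← h1]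
        exact Complex.re_le_norm z
      have h6 : z.re ≠ 1 := by
        intro h
        apply hz
        have h7 := Complex.sq_norm z
        rw [h1, Complex.normSq_apply, h] at h7
        have h8 : z.im = 0 := by nlinarith
        exact Complex.ext h h8
      have : z.re < 1 := lt_of_le_of_ne h5 h6
      simp only [Complex.sub_re, Complex.one_re]
      linarith
    have h5 : Tendsto (fun x : ℂ => -Complex.log (1 - z * x)) (𝓝 1) (𝓝 (-Complex.log (1 - z * 1))) := by
      refine (ContinuousAt.neg ?_).tendsto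
      refine ContinuousAt.clog (by fun_prop) ?_
      simpa using h4
    rw [mul_one] at h5
    refine h5.mono_left ?_
    have h6 : Tendsto (fun x : ℝ => (x : ℂ)) (𝓝[<] (1 : ℝ)) (𝓝 ((1 : ℝ) : ℂ)) :=
      (Complex.continuous_ofReal.tendsto 1).mono_left nhdsWithin_le_nhds
    rw [Complex.ofReal_one] at h6
    exact h6
  refine tendsto_nhds_unique (h2.congr' ?_) h3
  rw [Filter.EventuallyEq, Filter.eventually_map]
  have h3 : ∀ᶠ x : ℝ in 𝓝[<] (1 : ℝ), x ∈ Set.Ioo (0 : ℝ) 1 := Ioo_mem_nhdsLT zero_lt_one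
  filter_upwards [h3] with x hx
  have hx1 : ‖z * (x : ℂ)‖ < 1 := by
    rw [norm_mul, h1, one_mul, Complex.norm_real, Real.norm_of_nonneg hx.1.le]
    exact hx.2
  rw [← (Complex.hasSum_taylorSeries_neg_log hx1).tsum_eq]
  refine tsum_congr fun n => ?_
  rw [mul_pow]
  ring

theorem exp_Li_one (z : ℂ) (h1 : ‖z‖ = 1) (hz : z ≠ 1) : Complex.exp (Li [(1, z)]) = (1 - z)⁻¹ := by
  rw [Li_one z h1 hz, Complex.exp_neg, Complex.exp_log (sub_ne_zero.2 hz.symm)]

theorem ZS_one {N : ℕ} (x : ℂ) (hx : x ∈ ZS N 1) : ∃ z : ℂ, z ^ N = 1 ∧ z ≠ 1 ∧ x = Li [(1, z)] := by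
  obtain ⟨s, ⟨h1, h2, h3, h4⟩, rfl⟩ := hx
  obtain ⟨p, s, rfl⟩ := List.exists_cons_of_ne_nil h1
  have hp := h2 p (by simp)
  have hs : s = [] := by
    rcases s with _ | ⟨q, s⟩
    · rfl
    · have hq := h2 q (by simp)
      simp only [List.map_cons, List.sum_cons] at h4
      omega
  subst hs
  simp only [List.map_cons, List.map_nil, List.sum_cons, List.sum_nil, add_zero] at h4
  have e : p = (1, p.2) := Prod.ext h4 rfl
  exact ⟨p.2, hp.2, fun h => h3 p [] rfl (Prod.ext h4 h), by rw [← e]⟩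

theorem ZS_one_alg {N : ℕ} (hN : N ≠ 0) (x : ℂ) (hx : x ∈ ZS N 1) : IsAlgebraic ℚ (Complex.exp x) := by
  obtain ⟨z, h1, h2, rfl⟩ := ZS_one x hx
  rw [exp_Li_one z (Complex.norm_eq_one_of_pow_eq_one h1 hN) h2]
  have h3 : IsAlgebraic ℚ z := IsAlgebraic.of_pow (Nat.pos_of_ne_zero hN) (by rw [h1]; exact isAlgebraic_one)
  exact (isAlgebraic_one.sub h3).inv

theorem ZS_one_mem {N : ℕ} {z : ℂ} (h1 : z ^ N = 1) (h2 : z ≠ 1) : Li [(1, z)] ∈ ZS N 1 := by
  refine ⟨[(1, z)], ⟨by simp, by simp [h1], ?_, by simp⟩, rfl⟩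
  intro p t hp
  rw [← (List.cons.inj hp).1]
  intro h
  exact h2 (congrArg Prod.snd h)

theorem Li_one_ne {N : ℕ} (hN : N ≠ 0) {z : ℂ} (h1 : z ^ N = 1) (h2 : z ≠ 1) : Li [(1, z)] ≠ 0 := by
  intro h
  have h3 := exp_Li_one z (Complex.norm_eq_one_of_pow_eq_one h1 hN) h2
  rw [h, Complex.exp_zero] at h3
  have h4 : 1 - z = 1 := inv_eq_one.1 h3.symm
  have h5 : z = 0 := by linear_combination -h4
  rw [h5, zero_pow hN] at h1
  exact zero_ne_one h1

/-- every element of the `ℚ`-span of logarithms is a logarithm -/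
theorem span_log {S : Set ℂ} (hS : ∀ x ∈ S, IsAlgebraic ℚ (Complex.exp x)) (x : ℂ)
    (hx : x ∈ Submodule.span ℚ S) : IsAlgebraic ℚ (Complex.exp x) := by
  induction hx using Submodule.span_induction with
  | mem x h => exact hS x h
  | zero => rw [Complex.exp_zero]; exact isAlgebraic_one
  | add x y _ _ h1 h2 => rw [Complex.exp_add]; exact h1.mul h2
  | smul q x _ h =>
    have hd : 0 < q.den := q.den_pos
    refine IsAlgebraic.of_pow hd ?_
    rw [← Complex.exp_nat_mul]
    have e : ((q.den : ℕ) : ℂ) * (q • x) = (q.num : ℂ) * x := by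
      rw [Rat.smul_def, ← mul_assoc]
      congr 1
      have := Rat.den_mul_eq_num q
      exact_mod_cast congrArg (fun r : ℚ => (r : ℂ)) this
    rw [e, Complex.exp_int_mul]
    obtain ⟨n, hn | hn⟩ := q.num.eq_nat_or_neg
    · rw [hn, zpow_natCast]
      exact h.pow n
    · rw [hn, zpow_neg, zpow_natCast]
      exact (h.pow n).inv

/-- no space of logarithms is exceptional over `ℚ` -/
theorem not_hasAlg {S : Set ℂ} (hS : ∀ x ∈ S, IsAlgebraic ℚ (Complex.exp x)) :
    ¬ HasAlg (Submodule.span ℚ S) := by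
  rintro ⟨x, hx, y, hy, hy0, h1, h2⟩
  have hxa := span_log hS x hx
  have hya := span_log hS y hy
  by_cases hli : LinearIndependent ℚ ![x, y]
  · have h3 := Pool.Agent.H297R2.baker ![x, y] (by
      intro i
      fin_cases i
      · exact hxa
      · exact hya) hli ![1, -(x / y)] (by
      intro i
      fin_cases i
      · exact isAlgebraic_one
      · exact h1.neg) (by
      rw [Fin.sum_univ_two]
      simp only [Matrix.cons_val_zero, Matrix.cons_val_one]
      field_simp
      ring) 0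
    simp at h3
  · rw [LinearIndependent.pair_iff] at hli
    push Not at hli
    obtain ⟨a, b, hab, hne⟩ := hli
    have ha : a ≠ 0 := by
      rintro rfl
      rw [zero_smul, zero_add] at hab
      exact (hne rfl) ((smul_eq_zero.1 hab).resolve_right hy0)
    apply h2
    refine ⟨-(b / a), ?_⟩
    rw [Rat.smul_def, Rat.smul_def] at hab
    have ha' : (a : ℂ) ≠ 0 := by exact_mod_cast ha
    rw [eq_div_iff hy0]
    simp only [map_neg, map_div₀, eq_ratCast]
    field_simp
    linear_combination -hab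

end Pool.Agent.Q217.CD.Lev
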