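import Pool.Agent.Q217.CD.Level4
import Pool.Agent.H297R2.Density

/-! Superadditivity for families of spaces; levels two and six. -/

set_option autoImplicit false

open Finset Filter Topology Module

namespace Pool.Agent.Q217.CD.Lev

section engine

variable {K : Type*} [Field K] [Algebra K ℂ] {X : ℕ → Submodule K ℂ}

theorem fam_ne (hm : ∀ m n, X m * X n ≤ X (m + n)) (h1 : X 1 ≠ ⊥) : ∀ w, 1 ≤ w → X w ≠ ⊥ := by
  obtain ⟨x, hx, hx0⟩ := (Submodule.ne_bot_iff _).1 h1
  have h : ∀ w, x ^ (w + 1) ∈ X (w + 1) := by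
    intro w
    induction w with
    | zero => simpa using hx
    | succ w ih =>
      rw [pow_succ]
      exact hm (w + 1) 1 (Submodule.mul_mem_mul ih hx)
  intro w hw
  obtain ⟨v, rfl⟩ := Nat.exists_eq_add_of_le' hw
  exact (Submodule.ne_bot_iff _).2 ⟨_, h v, pow_ne_zero _ hx0⟩

theorem fam_sup (hf : ∀ w, FiniteDimensional K (X w)) (hm : ∀ m n, X m * X n ≤ X (m + n))
    (h1 : X 1 ≠ ⊥) (m n : ℕ) (hm1 : 1 ≤ m) (W : Submodule K ℂ) (hW : W ≤ X n)
    (hW0 : W ≠ ⊥) :
    finrank K (X m) + finrank K W ≤ finrank K (X (m + n)) + 1 ∨ HasAlg W := by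
  have := hf
  have hWf : FiniteDimensional K W := Submodule.finiteDimensional_of_le hW
  rcases cd (X m) W (fam_ne hm h1 m hm1) hW0 with h | h
  · left
    have h2 := Submodule.finrank_mono ((mul_le_mul' le_rfl hW).trans (hm m n))
    omega
  · exact Or.inr h

theorem fam_sup' (hf : ∀ w, FiniteDimensional K (X w)) (hm : ∀ m n, X m * X n ≤ X (m + n))
    (h1 : X 1 ≠ ⊥) (m n : ℕ) (hm1 : 1 ≤ m) (hn1 : 1 ≤ n) :
    finrank K (X m) + finrank K (X n) ≤ finrank K (X (m + n)) + 1 ∨ (HasAlg (X m) ∧ HasAlg (X n)) := by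
  rcases fam_sup hf hm h1 m n hm1 _ le_rfl (fam_ne hm h1 n hn1) with h | h
  · exact Or.inl h
  rcases fam_sup hf hm h1 n m hn1 _ le_rfl (fam_ne hm h1 m hm1) with h' | h'
  · left
    rw [add_comm n m] at h'
    omega
  · exact Or.inr ⟨h', h⟩

theorem fam_iter (hf : ∀ w, FiniteDimensional K (X w)) (hm : ∀ m n, X m * X n ≤ X (m + n))
    (h1 : X 1 ≠ ⊥) (k : ℕ) (hk : 1 ≤ k) (h : ¬ HasAlg (X k)) (n : ℕ) (hn : 1 ≤ n) (q : ℕ) :
    finrank K (X n) + q * finrank K (X k) ≤ finrank K (X (q * k + n)) + q := by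
  induction q with
  | zero =>
    have e : X (0 * k + n) = X n := by rw [Nat.zero_mul, Nat.zero_add]
    rw [e]
    omega
  | succ q ih =>
    rcases fam_sup hf hm h1 (q * k + n) k (by omega) _ le_rfl (fam_ne hm h1 k hk) with h2 | h2
    · rw [show (q + 1) * k + n = q * k + n + k by ring, add_mul, one_mul]
      omega
    · exact absurd h2 h

theorem fam_lin (hf : ∀ w, FiniteDimensional K (X w)) (hm : ∀ m n, X m * X n ≤ X (m + n))
    (h1 : X 1 ≠ ⊥) (k : ℕ) (hk : 1 ≤ k) (h : ¬ HasAlg (X k)) (n : ℕ) (hn : 1 ≤ n) :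
    n / k * (finrank K (X k) - 1) + 1 ≤ finrank K (X n) := by
  have := hf
  have hD : 1 ≤ finrank K (X k) := Submodule.one_le_finrank_iff.2 (fam_ne hm h1 k hk)
  obtain ⟨q, t, hqt, ht⟩ : ∃ q t : ℕ, q * k + t = n ∧ ((1 ≤ t ∧ n / k = q) ∨ (t = k ∧ n / k = q + 1)) := by
    have h3 := Nat.div_add_mod n k
    by_cases hmod : n % k = 0
    · have h2 : 1 ≤ n / k := by
        by_contra hc
        have h4 : n / k = 0 := Nat.lt_one_iff.1 (not_le.1 hc)
        rw [h4, hmod] at h3
        omega
      obtain ⟨q, hq⟩ := Nat.exists_eq_add_of_le' h2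
      refine ⟨q, k, ?_, Or.inr ⟨rfl, hq⟩⟩
      rw [hq, hmod] at h3
      nlinarith
    · exact ⟨n / k, n % k, by rw [mul_comm]; exact h3, Or.inl ⟨Nat.pos_of_ne_zero hmod, rfl⟩⟩
  obtain ⟨d, hd⟩ := Nat.exists_eq_add_of_le' hD
  rcases ht with ⟨ht, hq⟩ | ⟨rfl, hq⟩
  · have h4 := fam_iter hf hm h1 k hk h t ht q
    have h5 : 1 ≤ finrank K (X t) := Submodule.one_le_finrank_iff.2 (fam_ne hm h1 t ht)
    rw [hqt, hd] at h4
    rw [hq, hd, Nat.add_sub_cancel]
    nlinarith
  · have h4 := fam_iter hf hm h1 t hk h t hk q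
    rw [hqt, hd] at h4
    rw [hq, hd, Nat.add_sub_cancel]
    nlinarith

theorem fam_mono (hf : ∀ w, FiniteDimensional K (X w)) (hm : ∀ m n, X m * X n ≤ X (m + n))
    (h1 : X 1 ≠ ⊥) (n : ℕ) : finrank K (X n) ≤ finrank K (X (n + 1)) := by
  have := hf
  obtain ⟨x, hx, hx0⟩ := (Submodule.ne_bot_iff _).1 h1
  have hinj : Function.Injective (LinearMap.mulRight K x) := fun a b hab => mul_right_cancel₀ hx0 hab
  have h2 : (X n).map (LinearMap.mulRight K x) ≤ X (n + 1) := by
    rintro _ ⟨v, hv, rfl⟩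
    exact hm n 1 (Submodule.mul_mem_mul hv hx)
  have h3 := Submodule.finrank_mono h2
  have h4 := (Submodule.equivMapOfInjective (LinearMap.mulRight K x) hinj (X n)).finrank_eq
  omega

end engine

/-- comparison with the dimension over `ℚ` -/
theorem finrank_le_rat (K : Type*) [Field K] [Algebra K ℂ] (S : Set ℂ) (hS : S.Finite) :
    finrank K (Submodule.span K S) ≤ finrank ℚ (Submodule.span ℚ S) := by
  classical
  have hf : FiniteDimensional ℚ (Submodule.span ℚ S) := FiniteDimensional.span_of_finite ℚ hS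
  let b := Module.finBasis ℚ (Submodule.span ℚ S)
  have h1 : Submodule.span K S ≤
      Submodule.span K (Set.range fun i => ((b i : Submodule.span ℚ S) : ℂ)) := by
    rw [Submodule.span_le]
    intro x hx
    have hx' : x ∈ Submodule.span ℚ S := Submodule.subset_span hx
    have h2 := congrArg (Subtype.val) (b.sum_repr ⟨x, hx'⟩)
    rw [SetLike.mem_coe]
    rw [← show ((⟨x, hx'⟩ : Submodule.span ℚ S) : ℂ) = x from rfl, ← h2, Submodule.coe_sum]
    refine Submodule.sum_mem _ fun i _ => ?_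
    have h3 : ((b.repr ⟨x, hx'⟩ i • b i : Submodule.span ℚ S) : ℂ) =
        ((b.repr ⟨x, hx'⟩ i : ℚ) : K) • ((b i : Submodule.span ℚ S) : ℂ) := by
      rw [Submodule.coe_smul, Rat.smul_def, Algebra.smul_def, map_ratCast]
    rw [h3]
    exact Submodule.smul_mem _ _ (Submodule.subset_span ⟨i, rfl⟩)
  have h2 : FiniteDimensional K
      (Submodule.span K (Set.range fun i => ((b i : Submodule.span ℚ S) : ℂ))) :=
    FiniteDimensional.span_of_finite K (Set.finite_range _)
  calc finrank K (Submodule.span K S) ≤ _ := Submodule.finrank_mono h1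
    _ ≤ Fintype.card (Fin (finrank ℚ (Submodule.span ℚ S))) := finrank_range_le_card _
    _ = _ := Fintype.card_fin _

theorem ZS_ne (K : Type*) [Field K] [Algebra K ℂ] (N : ℕ) (hN : 2 ≤ N) :
    Submodule.span K (ZS N 1) ≠ ⊥ := by
  have hN0 : N ≠ 0 := by omega
  have h1 := Complex.isPrimitiveRoot_exp N hN0
  set z := Complex.exp (2 * Real.pi * Complex.I / N) with hz
  have h2 : z ≠ 1 := fun h => by
    have := h1.eq_orderOf
    rw [h, orderOf_one] at this
    omega
  exact (Submodule.ne_bot_iff _).2 ⟨_, Submodule.subset_span (ZS_one_mem h1.pow_eq_one h2),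
    Li_one_ne hN0 h1.pow_eq_one h2⟩

theorem CS_ne (K : Type*) [Field K] [Algebra K ℂ] : Submodule.span K (CS 1) ≠ ⊥ :=
  (Submodule.ne_bot_iff _).2 ⟨_, Submodule.subset_span ⟨1, [], by simp, by simp, rfl⟩,
    Li_one_ne (by norm_num) om_pow om_ne⟩

/-! ### level two -/

theorem Li_two : Li [(2, 1)] = (Real.pi : ℂ) ^ 2 / 6 := by
  have h1 := tendsto_tr [(2, (1 : ℂ))] (by simp) (by
    intro p t hp
    rw [← (List.cons.inj hp).1]
    intro h
    have := congrArg Prod.fst h
    simp at this)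
  have h2 := hasSum_zeta_two
  have h3 := h2.tendsto_sum_nat
  rw [← tendsto_add_atTop_iff_nat 1] at h3
  have h4 : Tendsto (fun L => ((∑ n ∈ range (L + 1), 1 / (n : ℝ) ^ 2 : ℝ) : ℂ)) atTop
      (𝓝 ((Real.pi ^ 2 / 6 : ℝ) : ℂ)) := (Complex.continuous_ofReal.tendsto _).comp h3
  have h5 := tendsto_nhds_unique (h4.congr fun L => ?_) h1
  · rw [← h5]
    push_cast
    rfl
  · rw [tr_cons, Finset.sum_range_succ']
    simp only [tr_nil]
    push_cast
    simp

theorem Li_minus : Li [(1, -1)] = -((Real.log 2 : ℝ) : ℂ) := by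
  rw [Li_one (-1) (by simp) (by norm_num)]
  rw [show (1 : ℂ) - -1 = ((2 : ℝ) : ℂ) by push_cast; ring, ← Complex.ofReal_log (by norm_num)]

theorem transc : ¬ IsAlgebraic ℚ ((Li [(1, -1)] ^ 2) / Li [(2, 1)]) := by
  intro h
  rw [Li_two, Li_minus] at h
  have hpi : (Real.pi : ℂ) ≠ 0 := by exact_mod_cast Real.pi_ne_zero
  have h1 : IsAlgebraic ℚ ((((Real.log 2 : ℝ) : ℂ) / (Real.pi * Complex.I)) ^ 2) := by
    have e : ((((Real.log 2 : ℝ) : ℂ) / (Real.pi * Complex.I)) ^ 2) =
        algebraMap ℚ ℂ (-1 / 6) * ((-((Real.log 2 : ℝ) : ℂ)) ^ 2 / ((Real.pi : ℂ) ^ 2 / 6)) := by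
      rw [div_pow, mul_pow, Complex.I_sq]
      simp only [map_div₀, map_neg, map_one, map_ofNat]
      field_simp
    rw [e]
    exact (isAlgebraic_algebraMap _).mul h
  have h2 : IsAlgebraic ℚ (((Real.log 2 : ℝ) : ℂ) / (Real.pi * Complex.I)) :=
    IsAlgebraic.of_pow (by norm_num) h1
  have hlog : Real.log 2 ≠ 0 := (Real.log_pos (by norm_num)).ne'
  have hli : LinearIndependent ℚ ![((Real.log 2 : ℝ) : ℂ), Real.pi * Complex.I] := by
    rw [LinearIndependent.pair_iff]
    intro s t hst
    rw [Rat.smul_def, Rat.smul_def] at hst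
    have e : (s : ℂ) * ((Real.log 2 : ℝ) : ℂ) + (t : ℂ) * (Real.pi * Complex.I) =
        (((s : ℝ) * Real.log 2 : ℝ) : ℂ) + (((t : ℝ) * Real.pi : ℝ) : ℂ) * Complex.I := by
      push_cast
      ring
    rw [e] at hst
    have hre := congrArg Complex.re hst
    have him := congrArg Complex.im hst
    simp only [Complex.add_re, Complex.ofReal_re, Complex.re_ofReal_mul, Complex.I_re, mul_zero, add_zero,
      Complex.zero_re] at hre
    simp only [Complex.add_im, Complex.ofReal_im, Complex.im_ofReal_mul, Complex.I_im, mul_one, zero_add,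
      Complex.zero_im] at him
    constructor
    · exact_mod_cast (mul_eq_zero.1 hre).resolve_right hlog
    · exact_mod_cast (mul_eq_zero.1 him).resolve_right Real.pi_ne_zero
  have h3 := Pool.Agent.H297R2.baker ![((Real.log 2 : ℝ) : ℂ), Real.pi * Complex.I] (by
    intro i
    fin_cases i
    · show IsAlgebraic ℚ (Complex.exp ((Real.log 2 : ℝ) : ℂ))
      rw [← Complex.ofReal_exp, Real.exp_log (by norm_num)]
      exact_mod_cast (isAlgebraic_natCast 2 : IsAlgebraic ℚ ((2 : ℕ) : ℂ))
    · show IsAlgebraic ℚ (Complex.exp (Real.pi * Complex.I))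
      rw [Complex.exp_pi_mul_I]
      exact isAlgebraic_one.neg) hli
    ![1, -(((Real.log 2 : ℝ) : ℂ) / (Real.pi * Complex.I))] (by
    intro i
    fin_cases i
    · exact isAlgebraic_one
    · exact h2.neg) (by
    rw [Fin.sum_univ_two]
    simp only [Matrix.cons_val_zero, Matrix.cons_val_one]
    have := Complex.I_ne_zero
    field_simp
    ring) 0
  simp at h3

theorem pair_not_alg {u v : ℂ} (hv : v ≠ 0) (h : ¬ IsAlgebraic ℚ (u / v)) :
    ¬ HasAlg (Submodule.span ℚ {u, v}) ∧ finrank ℚ (Submodule.span ℚ {u, v}) = 2 := by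
  constructor
  · rintro ⟨x, hx, y, hy, hy0, h1, h2⟩
    rw [Submodule.mem_span_pair] at hx hy
    obtain ⟨p, q, rfl⟩ := hx
    obtain ⟨r, s, rfl⟩ := hy
    simp only [Rat.smul_def] at hy0 h1 h2
    set α := ((p : ℂ) * u + q * v) / (r * u + s * v) with hα
    have h3 : (p : ℂ) * u + q * v = α * (r * u + s * v) := by
      rw [hα, div_mul_cancel₀ _ hy0]
    have hrat : ∀ a : ℚ, IsAlgebraic ℚ (a : ℂ) := fun a => isAlgebraic_algebraMap a
    by_cases h4 : (p : ℂ) - α * r = 0
    · have h5 : ((q : ℂ) - α * s) * v = 0 := by linear_combination h3 - u * h4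
      have h6 : (q : ℂ) - α * s = 0 := (mul_eq_zero.1 h5).resolve_right hv
      apply h2
      by_cases hr : r = 0
      · have hs : s ≠ 0 := by
          rintro rfl
          apply hy0
          rw [hr]
          simp
        have hs' : (s : ℂ) ≠ 0 := by exact_mod_cast hs
        refine ⟨q / s, ?_⟩
        simp only [map_div₀, eq_ratCast]
        rw [div_eq_iff hs']
        linear_combination h6
      · have hr' : (r : ℂ) ≠ 0 := by exact_mod_cast hr
        refine ⟨p / r, ?_⟩
        simp only [map_div₀, eq_ratCast]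
        rw [div_eq_iff hr']
        linear_combination h4
    · apply h
      have h5 : u / v = (α * s - q) / (p - α * r) := by
        rw [div_eq_div_iff hv h4]
        linear_combination h3
      rw [h5, div_eq_mul_inv]
      exact ((h1.mul (hrat s)).sub (hrat q)).mul ((hrat p).sub (h1.mul (hrat r))).inv
  · have hli : LinearIndependent ℚ ![u, v] := by
      rw [LinearIndependent.pair_iff]
      intro s t hst
      rw [Rat.smul_def, Rat.smul_def] at hst
      have hs : s = 0 := by
        by_contra hs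
        apply h
        have hs' : (s : ℂ) ≠ 0 := by exact_mod_cast hs
        have e : u / v = algebraMap ℚ ℂ (-t / s) := by
          simp only [map_div₀, map_neg, eq_ratCast]
          rw [div_eq_div_iff hv hs']
          linear_combination hst
        rw [e]
        exact isAlgebraic_algebraMap _
      refine ⟨hs, ?_⟩
      rw [hs, Rat.cast_zero, zero_mul, zero_add] at hst
      exact_mod_cast (mul_eq_zero.1 hst).resolve_right hv
    have h2 := finrank_span_eq_card hli
    rw [Matrix.range_cons, Matrix.range_cons, Matrix.range_empty, Set.union_empty,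
      Set.singleton_union] at h2
    rw [h2, Fintype.card_fin]

/-- level two: two more weights give a larger dimension -/
theorem level_two (n : ℕ) (hn : 1 ≤ n) :
    finrank ℚ (Submodule.span ℚ (ZS 2 n)) + 1 ≤ finrank ℚ (Submodule.span ℚ (ZS 2 (n + 2))) := by
  have hv : Li [(2, 1)] ≠ 0 := by
    rw [Li_two]
    have : (Real.pi : ℂ) ≠ 0 := by exact_mod_cast Real.pi_ne_zero
    exact div_ne_zero (pow_ne_zero _ this) (by norm_num)
  obtain ⟨h1, h2⟩ := pair_not_alg hv transc
  set W := Submodule.span ℚ {Li [(1, -1)] ^ 2, Li [(2, 1)]} with hW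
  have hW2 : W ≤ Submodule.span ℚ (ZS 2 2) := by
    rw [hW, Submodule.span_le]
    rintro x (rfl | rfl)
    · rw [SetLike.mem_coe, pow_two]
      have h3 : Li [(1, -1)] ∈ Submodule.span ℚ (ZS 2 1) :=
        Submodule.subset_span (ZS_one_mem (by norm_num) (by norm_num))
      exact ZS_mul ℚ 2 1 1 (by norm_num) (Submodule.mul_mem_mul h3 h3)
    · refine Submodule.subset_span ⟨[(2, 1)], ⟨by simp, by simp, ?_, by simp⟩, rfl⟩
      intro p t hp
      rw [← (List.cons.inj hp).1]
      intro h
      have := congrArg Prod.fst h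
      simp at this
  have hW0 : W ≠ ⊥ := by
    intro h
    rw [h, finrank_bot] at h2
    omega
  rcases fam_sup (X := fun w => Submodule.span ℚ (ZS 2 w))
    (fun w => FiniteDimensional.span_of_finite ℚ (ZS_finite 2 w (by norm_num)))
    (fun m n => ZS_mul ℚ 2 m n (by norm_num)) (ZS_ne ℚ 2 le_rfl) n 2 hn W hW2 hW0 with h | h
  · rw [h2] at h
    omega
  · exact absurd h h1

/-! ### level six -/

theorem om_val : om = 1 / 2 + (Real.sqrt 3 / 2 : ℝ) * Complex.I := by
  rw [om, show (Real.pi : ℂ) * Complex.I / 3 = ((Real.pi / 3 : ℝ) : ℂ) * Complex.I by push_cast; ring,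
    Complex.exp_mul_I, ← Complex.ofReal_cos, ← Complex.ofReal_sin, Real.cos_pi_div_three,
    Real.sin_pi_div_three]
  push_cast
  ring

theorem level_six : 3 ≤ finrank ℚ (Submodule.span ℚ (ZS 6 1)) := by
  have hom2 : om ^ 2 = om - 1 := by
    have h3 : ((Real.sqrt 3 : ℝ) : ℂ) ^ 2 = 3 := by
      rw [← Complex.ofReal_pow, Real.sq_sqrt (by norm_num)]
      norm_num
    rw [om_val]
    push_cast
    linear_combination (Complex.I ^ 2 / 4) * h3 + (3 / 4) * Complex.I_sq
  have hom2' : om ^ 2 ≠ 1 := by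
    intro h
    rw [hom2, om_val] at h
    have := congrArg Complex.re h
    simp at this
    norm_num at this
  have h6 : (om ^ 2) ^ 6 = 1 := by rw [← pow_mul, mul_comm, pow_mul, om_pow, one_pow]
  have r1 : (Li [(1, -1)]).re = -Real.log 2 := by rw [Li_minus, Complex.neg_re, Complex.ofReal_re]
  have r2 : (Li [(1, om)]).re = 0 := by
    rw [Li_one om norm_om om_ne, Complex.neg_re, Complex.log_re]
    have : 1 - om = -om ^ 2 := by rw [hom2]; ring
    rw [this, norm_neg, norm_pow, norm_om]
    simp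
  have r3 : (Li [(1, om ^ 2)]).re = -(Real.log 3 / 2) := by
    rw [Li_one (om ^ 2) (by rw [norm_pow, norm_om, one_pow]) hom2', Complex.neg_re, Complex.log_re]
    have h3 : ‖1 - om ^ 2‖ = Real.sqrt 3 := by
      have : Complex.normSq (1 - om ^ 2) = 3 := by
        rw [hom2, om_val, Complex.normSq_apply]
        simp
        have h3 : Real.sqrt 3 * Real.sqrt 3 = 3 := Real.mul_self_sqrt (by norm_num)
        nlinarith
      rw [Complex.norm_def, this]
    rw [h3, Real.log_sqrt (by norm_num)]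
  have hli : LinearIndependent ℚ ![Li [(1, -1)], Li [(1, om)], Li [(1, om ^ 2)]] := by
    rw [Fintype.linearIndependent_iff]
    intro g hg
    rw [Fin.sum_univ_three] at hg
    simp only [Matrix.cons_val_zero, Matrix.cons_val_one, Matrix.cons_val, Rat.smul_def] at hg
    have c : ∀ q : ℚ, (q : ℂ) = ((q : ℝ) : ℂ) := fun q => by push_cast; rfl
    have hg' := hg
    rw [c, c, c] at hg'
    have hre := congrArg Complex.re hg'
    simp only [Complex.add_re, Complex.re_ofReal_mul, r1, r2, r3, Complex.zero_re, mul_zero, add_zero] at hre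
    have hlog := Pool.Agent.H297R2.linearIndependent_log_prime ![2, 3] (by
      intro i
      fin_cases i
      · exact Nat.prime_two
      · exact Nat.prime_three) (by decide)
    rw [Fintype.linearIndependent_iff] at hlog
    have h4 := hlog ![2 * g 0, g 2] (by
      rw [Fin.sum_univ_two]
      simp only [Matrix.cons_val_zero, Matrix.cons_val_one, Rat.smul_def]
      have h5 : (2 * (g 0 : ℝ)) * Real.log 2 + (g 2 : ℝ) * Real.log 3 = 0 := by linarith
      have h6 := congrArg (fun x : ℝ => (x : ℂ)) h5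
      push_cast at h6 ⊢
      exact h6)
    have g0 : g 0 = 0 := by simpa using h4 0
    have g2 : g 2 = 0 := by simpa using h4 1
    have g1 : g 1 = 0 := by
      rw [g0, g2] at hg
      simp only [Rat.cast_zero, zero_mul, zero_add, add_zero] at hg
      exact_mod_cast (mul_eq_zero.1 hg).resolve_right (Li_one_ne (by norm_num) om_pow om_ne)
    intro i
    fin_cases i
    · exact g0
    · exact g1
    · exact g2
  have h7 := finrank_span_eq_card hli
  rw [Fintype.card_fin] at h7
  have h8 : finrank ℚ (Submodule.span ℚ (Set.range ![Li [(1, -1)], Li [(1, om)], Li [(1, om ^ 2)]])) = 3 := h7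
  have hf : FiniteDimensional ℚ (Submodule.span ℚ (ZS 6 1)) :=
    FiniteDimensional.span_of_finite ℚ (ZS_finite 6 1 (by norm_num))
  rw [← h8]
  refine Submodule.finrank_mono (Submodule.span_mono ?_)
  rintro x ⟨i, rfl⟩
  fin_cases i
  · exact ZS_one_mem (by norm_num) (by norm_num)
  · exact ZS_one_mem om_pow om_ne
  · exact ZS_one_mem h6 hom2'

end Pool.Agent.Q217.CD.Lev
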