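import Pool.Agent.Q217.CD.Basic
import Pool.Agent.H447R2.MZ.Tup

/-! Superadditivity of the dimensions of the spaces of multiple zeta values of given weight and
bounded depth. -/

set_option autoImplicit false

open Module Filter Topology

namespace Pool.Agent.Q217.CD

open Pool.Agent.H447R2.MZ

variable (K : Type*) [Field K] [Algebra K ℝ]

/-- the span over `K` of the multiple zeta values of weight `n` and depth at most `r` -/
noncomputable def Zr (n r : ℕ) : Submodule K ℝ :=
  Submodule.span K {x : ℝ | ∃ s : List ℕ, Adm s ∧ s.sum = n ∧ s.length ≤ r ∧ x = val s}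

theorem st_length (s t : List ℕ) : ∀ u ∈ st s t, u.length ≤ s.length + t.length := by
  induction s, t using st.induct with
  | case1 t => simp [st]
  | case2 a s => simp [st]
  | case3 a s b t ih1 ih2 ih3 =>
    intro u hu
    rw [st] at hu
    simp only [List.mem_append, List.mem_map] at hu
    rcases hu with (⟨v, hv, rfl⟩ | ⟨v, hv, rfl⟩) | ⟨v, hv, rfl⟩
    · have := ih1 v hv
      simp only [List.length_cons] at this ⊢
      omega
    · have := ih2 v hv
      simp only [List.length_cons] at this ⊢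
      omega
    · have := ih3 v hv
      simp only [List.length_cons] at this ⊢
      omega

theorem mul_le (m n r s : ℕ) : Zr K m r * Zr K n s ≤ Zr K (m + n) (r + s) := by
  unfold Zr
  rw [Submodule.span_mul_span, Submodule.span_le]
  rintro _ ⟨_, ⟨a, ha, ham, har, rfl⟩, _, ⟨b, hb, hbn, hbs, rfl⟩, rfl⟩
  simp only [SetLike.mem_coe]
  rw [val_mul a b ha hb]
  refine list_sum_mem fun z hz => ?_
  rw [List.mem_map] at hz
  obtain ⟨u, hu, rfl⟩ := hz
  refine Submodule.subset_span ⟨u, st_adm a b ha hb u hu, ?_, ?_, rfl⟩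
  · rw [st_sum a b u hu, ham, hbn]
  · have := st_length a b u hu
    omega

instance finite_Zr (n r : ℕ) : FiniteDimensional K (Zr K n r) := by
  have h : {x : ℝ | ∃ s : List ℕ, Adm s ∧ s.sum = n ∧ s.length ≤ r ∧ x = val s}.Finite := by
    refine (Set.finite_range (fun c : Composition n => val c.blocks)).subset ?_
    rintro x ⟨s, hs, hn, _, rfl⟩
    exact ⟨⟨s, fun {i} hi => hs.1 i hi, hn⟩, rfl⟩
  exact FiniteDimensional.span_of_finite K h

theorem one_mem_Zr (r : ℕ) : (1 : ℝ) ∈ Zr K 0 r := by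
  have h : Adm [] := ⟨by simp, by simp⟩
  have e : val [] = 1 := by
    have h1 := tendsto_H [] h
    have h2 : Tendsto (H []) atTop (𝓝 1) := by
      have : H [] = fun _ => 1 := by funext N; exact H_nil N
      rw [this]
      exact tendsto_const_nhds
    exact tendsto_nhds_unique h1 h2
  rw [← e]
  exact Submodule.subset_span ⟨[], h, rfl, by simp, rfl⟩

theorem zeta_mem_Zr (n r : ℕ) (hn : 2 ≤ n) (hr : 1 ≤ r) :
    (∑' k : ℕ, (1 : ℝ) / ((k : ℝ) + 1) ^ n) ∈ Zr K n r := by
  rw [(val_single n hn).tsum_eq]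
  have h : Adm [n] := ⟨by simp; omega, by
    intro b t hb
    simp only [List.cons.injEq] at hb
    omega⟩
  exact Submodule.subset_span ⟨[n], h, by simp, by simpa using hr, rfl⟩

theorem ne_bot (n r : ℕ) (h : n = 0 ∨ (2 ≤ n ∧ 1 ≤ r)) : Zr K n r ≠ ⊥ := by
  rcases h with rfl | ⟨hn, hr⟩
  · exact (Submodule.ne_bot_iff _).2 ⟨1, one_mem_Zr K r, one_ne_zero⟩
  · exact (Submodule.ne_bot_iff _).2 ⟨_, zeta_mem_Zr K n r hn hr, (zeta_pos n hn).ne'⟩

theorem one_le (n r : ℕ) (h : n = 0 ∨ (2 ≤ n ∧ 1 ≤ r)) : 1 ≤ finrank K (Zr K n r) :=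
  Submodule.one_le_finrank_iff.2 (ne_bot K n r h)

theorem super (m n r s : ℕ) (hm : Zr K m r ≠ ⊥) (hn : Zr K n s ≠ ⊥) :
    finrank K (Zr K m r) + finrank K (Zr K n s) ≤ finrank K (Zr K (m + n) (r + s)) + 1 ∨
      HasAlg (Zr K n s) := by
  rcases cd (Zr K m r) (Zr K n s) hm hn with h | h
  · left
    have := Submodule.finrank_mono (mul_le K m n r s)
    omega
  · exact Or.inr h

theorem super' (m n r s : ℕ) (hm : Zr K m r ≠ ⊥) (hn : Zr K n s ≠ ⊥) :
    finrank K (Zr K m r) + finrank K (Zr K n s) ≤ finrank K (Zr K (m + n) (r + s)) + 1 ∨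
      (HasAlg (Zr K m r) ∧ HasAlg (Zr K n s)) := by
  rcases super K m n r s hm hn with h | h
  · exact Or.inl h
  rcases super K n m s r hn hm with h' | h'
  · left
    rw [add_comm n m, add_comm s r] at h'
    omega
  · exact Or.inr ⟨h', h⟩

theorem iter (k r n s : ℕ) (hk : Zr K k r ≠ ⊥) (hn : Zr K n s ≠ ⊥) (h : ¬ HasAlg (Zr K k r)) (q : ℕ) :
    finrank K (Zr K n s) + q * finrank K (Zr K k r) ≤ finrank K (Zr K (q * k + n) (q * r + s)) + q := by
  induction q with
  | zero =>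
    have e : Zr K (0 * k + n) (0 * r + s) = Zr K n s := by
      rw [Nat.zero_mul, Nat.zero_mul, Nat.zero_add, Nat.zero_add]
    rw [e]
    omega
  | succ q ih =>
    have h0 : Zr K (q * k + n) (q * r + s) ≠ ⊥ := by
      intro h0
      have h1 : finrank K (Zr K (q * k + n) (q * r + s)) = 0 := Submodule.finrank_eq_zero.2 h0
      have h2 : 1 ≤ finrank K (Zr K n s) := Submodule.one_le_finrank_iff.2 hn
      have h3 : 1 ≤ finrank K (Zr K k r) := Submodule.one_le_finrank_iff.2 hk
      nlinarith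
    rcases super K (q * k + n) k (q * r + s) r h0 hk with h1 | h1
    · rw [show (q + 1) * k + n = q * k + n + k by ring, show (q + 1) * r + s = q * r + s + r by ring,
        add_mul, one_mul]
      omega
    · exact absurd h1 h

/-- the whole space of weight `n` -/
theorem full (n r : ℕ) (hr : n ≤ r) : Zr K n r = Zr K n n := by
  unfold Zr
  congr 1
  ext x
  have key : ∀ s : List ℕ, Adm s → s.sum = n → s.length ≤ n := by
    intro s h1 h2
    have h4 : s.length ≤ s.sum := List.length_le_sum_of_one_le s h1.1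
    omega
  constructor
  · rintro ⟨s, h1, h2, _, h3⟩
    exact ⟨s, h1, h2, key s h1 h2, h3⟩
  · rintro ⟨s, h1, h2, h4, h3⟩
    exact ⟨s, h1, h2, h4.trans hr, h3⟩

theorem linear (k : ℕ) (hk : 2 ≤ k) (h : ¬ HasAlg (Zr K k k)) (n : ℕ) (hn : 2 ≤ n) :
    (n / k - 1) * (finrank K (Zr K k k) - 1) + 1 ≤ finrank K (Zr K n n) := by
  have hk0 : Zr K k k ≠ ⊥ := ne_bot K k k (Or.inr ⟨hk, by omega⟩)
  have hD : 1 ≤ finrank K (Zr K k k) := one_le K k k (Or.inr ⟨hk, by omega⟩)
  -- `n = q k + t`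
  obtain ⟨q, t, hqt, ht, hq⟩ : ∃ q t : ℕ, q * k + t = n ∧ t ≠ 1 ∧ n / k - 1 ≤ q := by
    have h1 := Nat.div_add_mod n k
    by_cases hmod : n % k = 1
    · have h2 : 1 ≤ n / k := by
        by_contra hc
        have h3 : n / k = 0 := Nat.lt_one_iff.1 (not_le.1 hc)
        rw [h3, hmod] at h1
        omega
      refine ⟨n / k - 1, k + 1, ?_, by omega, le_rfl⟩
      obtain ⟨q, hq⟩ := Nat.exists_eq_add_of_le' h2
      rw [hq] at h1 ⊢
      rw [Nat.add_sub_cancel]
      rw [hmod] at h1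
      nlinarith
    · exact ⟨n / k, n % k, by rw [mul_comm]; exact h1, hmod, Nat.sub_le _ _⟩
  have ht0 : t = 0 ∨ (2 ≤ t ∧ 1 ≤ t) := by omega
  have h1 := iter K k k t t hk0 (ne_bot K t t ht0) h q
  have h2 := one_le K t t ht0
  rw [hqt] at h1
  obtain ⟨d, hd⟩ := Nat.exists_eq_add_of_le' hD
  rw [hd] at h1 ⊢
  rw [Nat.add_sub_cancel]
  have h3 : (n / k - 1) * d ≤ q * d := Nat.mul_le_mul_right _ hq
  nlinarith

/-- comparison with the dimension over `ℚ` -/
theorem le_rat (n r : ℕ) : finrank K (Zr K n r) ≤ finrank ℚ (Zr ℚ n r) := by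
  classical
  let b := Module.finBasis ℚ (Zr ℚ n r)
  have h1 : Zr K n r ≤ Submodule.span K (Set.range fun i => ((b i : Zr ℚ n r) : ℝ)) := by
    unfold Zr
    rw [Submodule.span_le]
    intro x hx
    have hx' : x ∈ Zr ℚ n r := Submodule.subset_span hx
    have h2 := congrArg (Subtype.val) (b.sum_repr ⟨x, hx'⟩)
    rw [SetLike.mem_coe]
    rw [← show ((⟨x, hx'⟩ : Zr ℚ n r) : ℝ) = x from rfl, ← h2, Submodule.coe_sum]
    refine Submodule.sum_mem _ fun i _ => ?_
    have h3 : ((b.repr ⟨x, hx'⟩ i • b i : Zr ℚ n r) : ℝ) =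
        ((b.repr ⟨x, hx'⟩ i : ℚ) : K) • ((b i : Zr ℚ n r) : ℝ) := by
      rw [Submodule.coe_smul, Rat.smul_def, Algebra.smul_def, map_ratCast]
    rw [h3]
    exact Submodule.smul_mem _ _ (Submodule.subset_span ⟨i, rfl⟩)
  have h2 : FiniteDimensional K (Submodule.span K (Set.range fun i => ((b i : Zr ℚ n r) : ℝ))) :=
    FiniteDimensional.span_of_finite K (Set.finite_range _)
  calc finrank K (Zr K n r) ≤ _ := Submodule.finrank_mono h1
    _ ≤ Fintype.card (Fin (finrank ℚ (Zr ℚ n r))) := finrank_range_le_card _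
    _ = _ := Fintype.card_fin _

end Pool.Agent.Q217.CD
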